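import Pool.Agent.H64.TP.LUD
import Pool.Agent.H78.UX.FA
import Pool.Agent.H64.PF.PPF
import Pool.Agent.H64.JS.COM

/-!
# (T'): the post-critical set contains a continuum or is not uniformly disconnected near some critical point

`RetC f`: every point of `K` comes near the critical points in the Julia set (within a bounded time). `tprime`: `K` is empty, or
not totally disconnected, or not uniformly disconnected near some critical point in the Julia set, or `f` is a limit of maps
with more attracted critical points.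
-/

set_option autoImplicit false

open Filter Topology Polynomial Metric Set

namespace Pool.Agent.H64.TP

open Pool.Agent.H44.Fatou (rat rat_continuous)
open Pool.Agent.H32.BT Pool.Agent.H79.Eul Pool.Agent.H79.Par Pool.Agent.H44.RC Pool.Agent.H47.NM Pool.Agent.H47.RJ
open Pool.Agent.H57.CF Pool.Agent.H27.BR
open Pool.Agent.H64.JS

variable {d : ℕ}

/-- the closure of the forward orbits of the critical values of the critical points in the Julia set -/
def KK (f : OnePoint ℂ → OnePoint ℂ) : Set (OnePoint ℂ) := KJ {c | IsCrit f c} (JS f) f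

/-- every orbit in `K` comes near the critical points in the Julia set -/
def RetC (f : OnePoint ℂ → OnePoint ℂ) : Prop := ∀ U : Set (OnePoint ℂ), IsOpen U → (∀ c, IsCrit f c → c ∈ JS f → c ∈ U) →
  ∃ n : ℕ, ∀ x ∈ KK f, ∃ j ≤ n, f^[j] x ∈ U

/-- (T') -/
theorem tprime {m : ℕ} (hd : 2 ≤ d) (hm : m ≤ d) {x : Em d m} (hcop : IsCoprime (pol x.1) (pol x.2))
    (hdeg : max (pol x.1).natDegree (pol x.2).natDegree = d) (hup : ¬ UpF d m x)
    (hret : IsTotallyDisconnected (KK (Rf (ex d m x))) → RetC (Rf (ex d m x))) :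
    (∀ c, IsCrit (Rf (ex d m x)) c → c ∉ JS (Rf (ex d m x))) ∨ ¬ IsTotallyDisconnected (KK (Rf (ex d m x))) ∨
      ∃ c, IsCrit (Rf (ex d m x)) c ∧ c ∈ JS (Rf (ex d m x)) ∧ ¬ LUD (KK (Rf (ex d m x))) c := by
  rcases Pool.Agent.H78.UX.ud_all hd hm hcop hdeg hup with h1 | h1
  · exact Or.inl h1
  right
  by_contra hcon
  push Not at hcon
  obtain ⟨htd, hl⟩ := hcon
  have hret := hret htd
  have hcop' := ex_cop hcop
  have hdeg' := ex_deg hdeg
  set f := Rf (ex d m x) with hf
  have hfc : Continuous f := rat_continuous hcop'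
  have hKJ : KK f ⊆ JS f := kj_sub (js_closed _) (Pool.Agent.H64.PF.js_inv hd hcop' hdeg')
  have hKc : IsCompact (KK f) := (isClosed_closure).isCompact
  apply h1
  refine lud_orbit hcop' hKc (fun y hy => kj_inv hfc y hy) ?_ (fun c hcK hc => hl c hc (hKJ hcK))
  intro U hU hcU y hy
  obtain ⟨n, hn⟩ := hret (U ∪ (KK f)ᶜ) (hU.union hKc.isClosed.isOpen_compl) (fun c hc _ => by
    by_cases hcK : c ∈ KK f
    · exact Or.inl (hcU c hcK hc)
    · exact Or.inr hcK)
  obtain ⟨j, -, hj⟩ := hn y hy
  refine ⟨j, hj.resolve_right fun h => h ?_⟩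
  have : ∀ j : ℕ, f^[j] y ∈ KK f := by
    intro j
    induction j with
    | zero => exact hy
    | succ j ih =>
      rw [Function.iterate_succ_apply']
      exact kj_inv hfc _ ih
  exact this j

end Pool.Agent.H64.TP
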