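import Pool.Agent.H79.GP.GRD
import Pool.Agent.H91.Fatou.Crit

/-!
# Rational maps are locally bi-Lipschitz at the points which are not critical (chordal distance)
-/

set_option autoImplicit false

open Filter Topology Polynomial Metric Set Asymptotics

namespace Pool.Agent.H64.TP

open Pool.Agent.H44.Fatou (rat pt Wr dg)
open Pool.Agent.H91.Fatou (ch lin lin_eval ch_ne hom_ne rat_pt exists_chart crit_of_wr)
open Pool.Agent.H79.GP
open Pool.Agent.H35.EX (chord)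

/-- two-point estimate near a point where the Wronskian does not vanish -/
theorem two_pt {R S : Polynomial ℂ} {c : ℂ} (hW : (Wr R S).eval c ≠ 0) : ∃ m M : ℝ, 0 < m ∧ 0 < M ∧
    ∀ᶠ p : ℂ × ℂ in 𝓝 (c, c), m * ‖p.1 - p.2‖ ≤ ‖R.eval p.1 * S.eval p.2 - R.eval p.2 * S.eval p.1‖ ∧
      ‖R.eval p.1 * S.eval p.2 - R.eval p.2 * S.eval p.1‖ ≤ M * ‖p.1 - p.2‖ := by
  have hR := (R.hasStrictDerivAt c).isLittleO
  have hS := (S.hasStrictDerivAt c).isLittleO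
  set W := (Wr R S).eval c with hWdef
  have hWe : W = (derivative R).eval c * S.eval c - R.eval c * (derivative S).eval c := by
    rw [hWdef]
    unfold Wr
    rw [eval_sub, eval_mul, eval_mul]
  have hWn : 0 < ‖W‖ := norm_pos_iff.2 hW
  have hc1 : Tendsto (fun p : ℂ × ℂ => S.eval p.2) (𝓝 (c, c)) (𝓝 (S.eval c)) :=
    (S.continuous.comp continuous_snd).tendsto (c, c)
  have hc2 : Tendsto (fun p : ℂ × ℂ => R.eval p.2) (𝓝 (c, c)) (𝓝 (R.eval c)) :=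
    (R.continuous.comp continuous_snd).tendsto (c, c)
  have h1 : (fun p : ℂ × ℂ => (R.eval p.1 - R.eval p.2 - (p.1 - p.2) * (derivative R).eval c) * S.eval p.2) =o[𝓝 (c, c)]
      fun p => p.1 - p.2 := by
    have h2 := hR.mul_isBigO (hc1.isBigO_one ℂ)
    simpa using h2
  have h2 : (fun p : ℂ × ℂ => (S.eval p.1 - S.eval p.2 - (p.1 - p.2) * (derivative S).eval c) * R.eval p.2) =o[𝓝 (c, c)]
      fun p => p.1 - p.2 := by
    have h3 := hS.mul_isBigO (hc2.isBigO_one ℂ)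
    simpa using h3
  have h3 : (fun p : ℂ × ℂ => (p.1 - p.2) * ((derivative R).eval c * S.eval p.2 - R.eval p.2 * (derivative S).eval c - W))
      =o[𝓝 (c, c)] fun p => p.1 - p.2 := by
    have h4 : Tendsto (fun p : ℂ × ℂ => (derivative R).eval c * S.eval p.2 - R.eval p.2 * (derivative S).eval c - W)
        (𝓝 (c, c)) (𝓝 0) := by
      have h5 := ((hc1.const_mul ((derivative R).eval c)).sub (hc2.mul_const ((derivative S).eval c))).sub_const W
      rwa [← hWe, sub_self] at h5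
    have h6 := (isBigO_refl (fun p : ℂ × ℂ => p.1 - p.2) (𝓝 (c, c))).mul_isLittleO
      ((isLittleO_one_iff ℂ).2 h4)
    simpa using h6
  have h7 : (fun p : ℂ × ℂ => (R.eval p.1 * S.eval p.2 - R.eval p.2 * S.eval p.1) - (p.1 - p.2) * W)
      =o[𝓝 (c, c)] fun p => p.1 - p.2 := by
    refine ((h1.sub h2).add h3).congr_left fun p => ?_
    ring
  have h8 := h7.bound (show 0 < ‖W‖ / 2 by positivity)
  refine ⟨‖W‖ / 2, 2 * ‖W‖, by positivity, by positivity, ?_⟩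
  filter_upwards [h8] with p hp
  have e1 : ‖(p.1 - p.2) * W‖ = ‖W‖ * ‖p.1 - p.2‖ := by rw [norm_mul, mul_comm]
  have e2 := norm_sub_norm_le ((p.1 - p.2) * W) (R.eval p.1 * S.eval p.2 - R.eval p.2 * S.eval p.1)
  have e3 := norm_sub_norm_le (R.eval p.1 * S.eval p.2 - R.eval p.2 * S.eval p.1) ((p.1 - p.2) * W)
  rw [norm_sub_rev ((p.1 - p.2) * W)] at e2
  have e4 := norm_nonneg (p.1 - p.2)
  have e5 : 0 ≤ ‖W‖ * ‖p.1 - p.2‖ := by positivity
  constructor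
  · linarith
  · linarith

/-- the chordal distance in a chart -/
theorem ch_two {α β γ δ : ℂ} (hd : α * δ - β * γ ≠ 0) (t0 : ℂ) : ∃ m M : ℝ, 0 < m ∧ 0 < M ∧
    ∀ᶠ p : ℂ × ℂ in 𝓝 (t0, t0), m * ‖p.1 - p.2‖ ≤ chord (ch α β γ δ p.1) (ch α β γ δ p.2) ∧
      chord (ch α β γ δ p.1) (ch α β γ δ p.2) ≤ M * ‖p.1 - p.2‖ := by
  have hk : ∀ t : ℂ, 0 < grdN (α * t + β) (γ * t + δ) := fun t => grdN_pos (ch_ne hd t)
  have hN : Continuous fun t : ℂ => grdN (α * t + β) (γ * t + δ) := by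
    unfold grdN
    fun_prop
  set N0 := grdN (α * t0 + β) (γ * t0 + δ) with hN0
  have h0 : 0 < N0 := hk t0
  have hD : 0 < ‖α * δ - β * γ‖ := norm_pos_iff.2 hd
  have h1 : ∀ᶠ p : ℂ × ℂ in 𝓝 (t0, t0), N0 / 2 < grdN (α * p.1 + β) (γ * p.1 + δ) ∧
      grdN (α * p.1 + β) (γ * p.1 + δ) < 2 * N0 := by
    have h2 : Tendsto (fun p : ℂ × ℂ => grdN (α * p.1 + β) (γ * p.1 + δ)) (𝓝 (t0, t0)) (𝓝 N0) :=
      (hN.comp continuous_fst).tendsto (t0, t0)
    exact (h2.eventually (lt_mem_nhds (by linarith))).and (h2.eventually (gt_mem_nhds (by linarith)))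
  have h1' : ∀ᶠ p : ℂ × ℂ in 𝓝 (t0, t0), N0 / 2 < grdN (α * p.2 + β) (γ * p.2 + δ) ∧
      grdN (α * p.2 + β) (γ * p.2 + δ) < 2 * N0 := by
    have h2 : Tendsto (fun p : ℂ × ℂ => grdN (α * p.2 + β) (γ * p.2 + δ)) (𝓝 (t0, t0)) (𝓝 N0) :=
      (hN.comp continuous_snd).tendsto (t0, t0)
    exact (h2.eventually (lt_mem_nhds (by linarith))).and (h2.eventually (gt_mem_nhds (by linarith)))
  refine ⟨‖α * δ - β * γ‖ / (4 * N0 ^ 2), ‖α * δ - β * γ‖ * 4 / N0 ^ 2, by positivity, by positivity, ?_⟩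
  filter_upwards [h1, h1'] with p hp hp'
  have e1 : chord (ch α β γ δ p.1) (ch α β γ δ p.2) = ‖α * δ - β * γ‖ * ‖p.1 - p.2‖ /
      (grdN (α * p.1 + β) (γ * p.1 + δ) * grdN (α * p.2 + β) (γ * p.2 + δ)) := by
    unfold ch
    rw [grd_chord_pt (ch_ne hd p.1) (ch_ne hd p.2), ← norm_mul]
    congr 2
    ring
  have h3 := norm_nonneg (p.1 - p.2)
  have hq : 0 < grdN (α * p.1 + β) (γ * p.1 + δ) * grdN (α * p.2 + β) (γ * p.2 + δ) := mul_pos (hk _) (hk _)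
  have hq1 : grdN (α * p.1 + β) (γ * p.1 + δ) * grdN (α * p.2 + β) (γ * p.2 + δ) ≤ 4 * N0 ^ 2 := by
    nlinarith [hk p.1, hk p.2, hp.1, hp.2, hp'.1, hp'.2, mul_le_mul hp.2.le hp'.2.le (hk p.2).le (by linarith)]
  have hq2 : N0 ^ 2 / 4 ≤ grdN (α * p.1 + β) (γ * p.1 + δ) * grdN (α * p.2 + β) (γ * p.2 + δ) := by
    have := mul_le_mul hp.1.le hp'.1.le (by linarith) (hk p.1).le
    calc N0 ^ 2 / 4 = N0 / 2 * (N0 / 2) := by ring
      _ ≤ _ := this
  rw [e1]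
  constructor
  · rw [le_div_iff₀ hq]
    calc ‖α * δ - β * γ‖ / (4 * N0 ^ 2) * ‖p.1 - p.2‖ *
          (grdN (α * p.1 + β) (γ * p.1 + δ) * grdN (α * p.2 + β) (γ * p.2 + δ)) ≤
        ‖α * δ - β * γ‖ / (4 * N0 ^ 2) * ‖p.1 - p.2‖ * (4 * N0 ^ 2) := by gcongr
      _ = ‖α * δ - β * γ‖ * ‖p.1 - p.2‖ := by field_simp
  · rw [div_le_iff₀ hq]
    calc ‖α * δ - β * γ‖ * ‖p.1 - p.2‖ = ‖α * δ - β * γ‖ * 4 / N0 ^ 2 * ‖p.1 - p.2‖ * (N0 ^ 2 / 4) := by
          field_simp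
      _ ≤ _ := by gcongr

/-- rational maps are bi-Lipschitz near a point which is not critical -/
theorem bilip {P Q : Polynomial ℂ} (hc : IsCoprime P Q) {x : OnePoint ℂ}
    (hx : ∃ U ∈ 𝓝 x, InjOn (rat P Q) U) : ∃ M : ℝ, 0 < M ∧ ∃ U ∈ 𝓝 x, ∀ y ∈ U, ∀ z ∈ U,
      chord (rat P Q y) (rat P Q z) ≤ M * chord y z ∧ chord y z ≤ M * chord (rat P Q y) (rat P Q z) := by
  obtain ⟨α, β, γ, δ, hd, ho, h0⟩ := exists_chart x
  set R := lin α β γ δ (dg P Q) P with hR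
  set S := lin α β γ δ (dg P Q) Q with hS
  have hW : (Wr R S).eval 0 ≠ 0 := by
    intro h
    have h1 := crit_of_wr hd ho hc h
    rw [h0] at h1
    exact h1 hx
  have hRS : ∀ t : ℂ, R.eval t ≠ 0 ∨ S.eval t ≠ 0 := by
    intro t
    rw [hR, hS, lin_eval, lin_eval]
    exact hom_ne hc (ch_ne hd t)
  have hf : ∀ t : ℂ, rat P Q (ch α β γ δ t) = pt (R.eval t) (S.eval t) := by
    intro t
    unfold ch
    rw [rat_pt (ch_ne hd t), hR, hS, lin_eval, lin_eval]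
  obtain ⟨m, M, hm, hM, h1⟩ := two_pt hW
  obtain ⟨m', M', hm', hM', h2⟩ := ch_two hd (0 : ℂ)
  have hk : ∀ t : ℂ, 0 < grdN (R.eval t) (S.eval t) := fun t => grdN_pos (hRS t)
  have hN : Continuous fun t : ℂ => grdN (R.eval t) (S.eval t) := by
    unfold grdN
    fun_prop
  set N0 := grdN (R.eval 0) (S.eval 0) with hN0
  have h00 : 0 < N0 := hk 0
  have h3 : ∀ᶠ t : ℂ in 𝓝 0, N0 / 2 < grdN (R.eval t) (S.eval t) ∧ grdN (R.eval t) (S.eval t) < 2 * N0 := by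
    have h4 : Tendsto (fun t : ℂ => grdN (R.eval t) (S.eval t)) (𝓝 0) (𝓝 N0) := hN.tendsto 0
    exact (h4.eventually (lt_mem_nhds (by linarith))).and (h4.eventually (gt_mem_nhds (by linarith)))
  have h5 := h1.and h2
  rw [nhds_prod_eq, eventually_prod_self_iff'] at h5
  obtain ⟨V, hV, h5⟩ := h5
  obtain ⟨V', hV', h6⟩ := h3.exists_mem
  refine ⟨max (M * 4 / N0 ^ 2 / m') (M' * (4 * N0 ^ 2) / m), lt_max_of_lt_left (by positivity),
    ch α β γ δ '' (V ∩ V'), ?_, ?_⟩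
  · rw [← h0]
    exact ho.image_mem_nhds.2 (inter_mem hV hV')
  · rintro _ ⟨s, ⟨hs, hs'⟩, rfl⟩ _ ⟨t, ⟨ht, ht'⟩, rfl⟩
    obtain ⟨⟨a1, a2⟩, a3, a4⟩ := h5 s hs t ht
    obtain ⟨b1, b2⟩ := h6 s hs'
    obtain ⟨b3, b4⟩ := h6 t ht'
    simp only at a1 a2 a3 a4
    have hst := norm_nonneg (s - t)
    have hq : 0 < grdN (R.eval s) (S.eval s) * grdN (R.eval t) (S.eval t) := mul_pos (hk _) (hk _)
    have hq1 : grdN (R.eval s) (S.eval s) * grdN (R.eval t) (S.eval t) ≤ 4 * N0 ^ 2 := by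
      have := mul_le_mul b2.le b4.le (hk t).le (by linarith)
      calc _ ≤ 2 * N0 * (2 * N0) := this
        _ = 4 * N0 ^ 2 := by ring
    have hq2 : N0 ^ 2 / 4 ≤ grdN (R.eval s) (S.eval s) * grdN (R.eval t) (S.eval t) := by
      have := mul_le_mul b1.le b3.le (by linarith) (hk s).le
      calc N0 ^ 2 / 4 = N0 / 2 * (N0 / 2) := by ring
        _ ≤ _ := this
    have e1 : chord (rat P Q (ch α β γ δ s)) (rat P Q (ch α β γ δ t)) =
        ‖R.eval s * S.eval t - R.eval t * S.eval s‖ /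
          (grdN (R.eval s) (S.eval s) * grdN (R.eval t) (S.eval t)) := by
      rw [hf, hf, grd_chord_pt (hRS s) (hRS t)]
    have hcn : 0 ≤ chord (ch α β γ δ s) (ch α β γ δ t) := le_trans (by positivity) a3
    constructor
    · have c1 : chord (rat P Q (ch α β γ δ s)) (rat P Q (ch α β γ δ t)) ≤ M * 4 / N0 ^ 2 * ‖s - t‖ := by
        rw [e1, div_le_iff₀ hq]
        calc ‖R.eval s * S.eval t - R.eval t * S.eval s‖ ≤ M * ‖s - t‖ := a2
          _ = M * 4 / N0 ^ 2 * ‖s - t‖ * (N0 ^ 2 / 4) := by field_simp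
          _ ≤ _ := by gcongr
      have c2 : ‖s - t‖ ≤ chord (ch α β γ δ s) (ch α β γ δ t) / m' := by
        rw [le_div_iff₀ hm', mul_comm]
        exact a3
      calc chord (rat P Q (ch α β γ δ s)) (rat P Q (ch α β γ δ t)) ≤ M * 4 / N0 ^ 2 * ‖s - t‖ := c1
        _ ≤ M * 4 / N0 ^ 2 * (chord (ch α β γ δ s) (ch α β γ δ t) / m') := by gcongr
        _ = M * 4 / N0 ^ 2 / m' * chord (ch α β γ δ s) (ch α β γ δ t) := by ring
        _ ≤ _ := by
          gcongr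
          exact le_max_left _ _
    · have hcn' : 0 ≤ chord (rat P Q (ch α β γ δ s)) (rat P Q (ch α β γ δ t)) := by
        rw [e1]
        positivity
      have c1 : m / (4 * N0 ^ 2) * ‖s - t‖ ≤ chord (rat P Q (ch α β γ δ s)) (rat P Q (ch α β γ δ t)) := by
        rw [e1, le_div_iff₀ hq]
        calc m / (4 * N0 ^ 2) * ‖s - t‖ * (grdN (R.eval s) (S.eval s) * grdN (R.eval t) (S.eval t)) ≤
            m / (4 * N0 ^ 2) * ‖s - t‖ * (4 * N0 ^ 2) := by gcongr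
          _ = m * ‖s - t‖ := by field_simp
          _ ≤ _ := a1
      have c2 : ‖s - t‖ ≤ (4 * N0 ^ 2) / m * chord (rat P Q (ch α β γ δ s)) (rat P Q (ch α β γ δ t)) := by
        calc ‖s - t‖ = (4 * N0 ^ 2) / m * (m / (4 * N0 ^ 2) * ‖s - t‖) := by field_simp
          _ ≤ _ := by gcongr
      calc chord (ch α β γ δ s) (ch α β γ δ t) ≤ M' * ‖s - t‖ := a4
        _ ≤ M' * ((4 * N0 ^ 2) / m * chord (rat P Q (ch α β γ δ s)) (rat P Q (ch α β γ δ t))) := by gcongr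
        _ = M' * (4 * N0 ^ 2) / m * chord (rat P Q (ch α β γ δ s)) (rat P Q (ch α β γ δ t)) := by ring
        _ ≤ _ := by
          gcongr
          exact le_max_right _ _

end Pool.Agent.H64.TP
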