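import Pool.Agent.H64.TP.BIL
import Pool.Agent.H27.BR.Defs

/-!
# Uniform disconnectedness near a point of the sphere

`LUD K x`: `K` is uniformly disconnected near `x`. `lud_glob`: a compact set which is uniformly disconnected near each of its
points is uniformly disconnected. `lud_step`: if `f` maps `K` into itself, `x` is not critical and `K` is uniformly
disconnected near `f x`, then `K` is uniformly disconnected near `x`.
-/

set_option autoImplicit false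

open Filter Topology Polynomial Metric Set

namespace Pool.Agent.H64.TP

open Pool.Agent.H44.Fatou (rat)
open Pool.Agent.H35.EX (chord)
open Pool.Agent.H44.RC Pool.Agent.H44.RR Pool.Agent.H27.BR

/-- `K` is uniformly disconnected near `x` -/
def LUD (K : Set (OnePoint ℂ)) (x : OnePoint ℂ) : Prop := ∃ C δ : ℝ, 0 < C ∧ 0 < δ ∧
  ∀ z ∈ K, chord x z < δ → ∀ r : ℝ, 0 < r → r < δ → ∃ A ⊆ K, z ∈ A ∧ (∀ a ∈ A, chord z a < r) ∧
    ∀ a ∈ A, ∀ p ∈ K, p ∉ A → r ≤ C * chord a p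

/-- it is an open condition on the point -/
theorem lud_near {K : Set (OnePoint ℂ)} {x : OnePoint ℂ} (h : LUD K x) :
    ∃ δ : ℝ, 0 < δ ∧ ∀ y, chord x y < δ → LUD K y := by
  obtain ⟨C, δ, hC, hδ, h⟩ := h
  refine ⟨δ / 2, by positivity, fun y hy => ⟨C, δ / 2, hC, by positivity, fun z hz hyz r hr hr2 => ?_⟩⟩
  refine h z hz ?_ r hr (by linarith)
  have := ch_tri x y z
  linarith

theorem lud_of_uds {K : Set (OnePoint ℂ)} (h : UDs K) (x : OnePoint ℂ) : LUD K x := by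
  obtain ⟨C, hC, h⟩ := h
  exact ⟨C, 1, hC, one_pos, fun z hz _ r hr _ => h z hz r hr⟩

/-- local implies global -/
theorem lud_glob {K : Set (OnePoint ℂ)} (hK : IsCompact K) (h : ∀ x ∈ K, LUD K x) : UDs K := by
  have key : ∃ C δ : ℝ, 0 < C ∧ 0 < δ ∧ ∀ z ∈ K, z ∈ K → ∀ r : ℝ, 0 < r → r < δ → ∃ A ⊆ K, z ∈ A ∧
      (∀ a ∈ A, chord z a < r) ∧ ∀ a ∈ A, ∀ p ∈ K, p ∉ A → r ≤ C * chord a p := by
    refine hK.induction_on (p := fun s => ∃ C δ : ℝ, 0 < C ∧ 0 < δ ∧ ∀ z ∈ s, z ∈ K → ∀ r : ℝ, 0 < r → r < δ →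
      ∃ A ⊆ K, z ∈ A ∧ (∀ a ∈ A, chord z a < r) ∧ ∀ a ∈ A, ∀ p ∈ K, p ∉ A → r ≤ C * chord a p) ?_ ?_ ?_ ?_
    · exact ⟨1, 1, one_pos, one_pos, fun z hz => absurd hz (notMem_empty z)⟩
    · rintro s t hst ⟨C, δ, hC, hδ, h1⟩
      exact ⟨C, δ, hC, hδ, fun z hz => h1 z (hst hz)⟩
    · rintro s t ⟨C, δ, hC, hδ, h1⟩ ⟨C', δ', hC', hδ', h2⟩
      refine ⟨max C C', min δ δ', lt_max_of_lt_left hC, lt_min hδ hδ', ?_⟩
      rintro z (hz | hz) hzK r hr hr2
      · obtain ⟨A, hAK, hzA, hA1, hA2⟩ := h1 z hz hzK r hr (hr2.trans_le (min_le_left _ _))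
        exact ⟨A, hAK, hzA, hA1, fun a ha p hp hpA => (hA2 a ha p hp hpA).trans
          (mul_le_mul_of_nonneg_right (le_max_left _ _) (chord_nn _ _))⟩
      · obtain ⟨A, hAK, hzA, hA1, hA2⟩ := h2 z hz hzK r hr (hr2.trans_le (min_le_right _ _))
        exact ⟨A, hAK, hzA, hA1, fun a ha p hp hpA => (hA2 a ha p hp hpA).trans
          (mul_le_mul_of_nonneg_right (le_max_right _ _) (chord_nn _ _))⟩
    · intro x hx
      obtain ⟨C, δ, hC, hδ, h1⟩ := h x hx
      refine ⟨{y | chord x y < δ}, mem_nhdsWithin_of_mem_nhds ((ch_ball x δ).mem_nhds ?_), C, δ, hC, hδ,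
        fun z hz hzK => h1 z hzK hz⟩
      rw [mem_setOf_eq, chord_zero]
      exact hδ
  obtain ⟨C, δ, hC, hδ, h1⟩ := key
  refine ⟨max C (2 * C / δ), lt_max_of_lt_left hC, fun z hz r hr => ?_⟩
  rcases lt_or_ge r δ with hrδ | hrδ
  · obtain ⟨A, hAK, hzA, hA1, hA2⟩ := h1 z hz hz r hr hrδ
    exact ⟨A, hAK, hzA, hA1, fun a ha p hp hpA => (hA2 a ha p hp hpA).trans
      (mul_le_mul_of_nonneg_right (le_max_left _ _) (chord_nn _ _))⟩
  rcases lt_or_ge 1 r with hr1 | hr1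
  · exact ⟨K, Subset.rfl, hz, fun a _ => (ch_le_one z a).trans_lt hr1, fun a _ p hp hpA => absurd hp hpA⟩
  · obtain ⟨A, hAK, hzA, hA1, hA2⟩ := h1 z hz hz (δ / 2) (by positivity) (by linarith)
    refine ⟨A, hAK, hzA, fun a ha => (hA1 a ha).trans (by linarith), fun a ha p hp hpA => ?_⟩
    have h2 := hA2 a ha p hp hpA
    have h3 : 1 ≤ 2 * C / δ * chord a p := by
      rw [div_mul_eq_mul_div, le_div_iff₀ hδ]
      linarith
    calc r ≤ 1 := hr1
      _ ≤ 2 * C / δ * chord a p := h3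
      _ ≤ _ := mul_le_mul_of_nonneg_right (le_max_right _ _) (chord_nn _ _)

/-- pull back by one step -/
theorem lud_step {P Q : Polynomial ℂ} (hc : IsCoprime P Q) {K : Set (OnePoint ℂ)} (hK : MapsTo (rat P Q) K K)
    {x : OnePoint ℂ} (hx : ∃ U ∈ 𝓝 x, InjOn (rat P Q) U) (h : LUD K (rat P Q x)) : LUD K x := by
  obtain ⟨M, hM, U, hU, hb⟩ := bilip hc hx
  obtain ⟨ρ, hρ, hρU⟩ := ch_nhds hU
  obtain ⟨C, δ, hC, hδ, h⟩ := h
  have hxU : x ∈ U := hρU (by rw [mem_setOf_eq, chord_zero]; exact hρ)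
  set δ1 := min (ρ / 3) (min (δ / M) (M * δ)) with hδ1
  have hδ10 : 0 < δ1 := lt_min (by positivity) (lt_min (by positivity) (by positivity))
  have d1 : δ1 ≤ ρ / 3 := min_le_left _ _
  have d2 : δ1 ≤ δ / M := (min_le_right _ _).trans (min_le_left _ _)
  have d3 : δ1 ≤ M * δ := (min_le_right _ _).trans (min_le_right _ _)
  refine ⟨max (C * M ^ 2) 1, δ1, lt_max_of_lt_right one_pos, hδ10, fun z hz hxz r hr hrδ => ?_⟩
  have hzU : z ∈ U := hρU (show chord x z < ρ by linarith)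
  have h1 : chord (rat P Q x) (rat P Q z) < δ := by
    have h2 := (hb x hxU z hzU).1
    have h3 : M * chord x z < M * (δ / M) := mul_lt_mul_of_pos_left (hxz.trans_le d2) hM
    rw [mul_div_cancel₀ _ hM.ne'] at h3
    linarith
  obtain ⟨A', hA'K, hzA', hA1, hA2⟩ := h (rat P Q z) (hK hz) h1 (r / M) (by positivity) (by
    rw [div_lt_iff₀ hM, mul_comm]
    exact hrδ.trans_le d3)
  refine ⟨{a | a ∈ K ∧ chord x a < ρ ∧ rat P Q a ∈ A'}, fun a ha => ha.1, ⟨hz, by linarith, hzA'⟩, ?_, ?_⟩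
  · rintro a ⟨haK, haρ, haA⟩
    have h2 := (hb z hzU a (hρU haρ)).2
    have h3 := hA1 _ haA
    rw [lt_div_iff₀ hM] at h3
    linarith
  · rintro a ⟨haK, haρ, haA⟩ p hp hpA
    by_cases hpρ : chord x p < ρ
    · have h2 : rat P Q p ∉ A' := fun h3 => hpA ⟨hp, hpρ, h3⟩
      have h3 := hA2 _ haA _ (hK hp) h2
      have h4 := (hb a (hρU haρ) p (hρU hpρ)).1
      rw [div_le_iff₀ hM] at h3
      calc r ≤ C * chord (rat P Q a) (rat P Q p) * M := h3
        _ ≤ C * (M * chord a p) * M := by gcongr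
        _ = C * M ^ 2 * chord a p := by ring
        _ ≤ _ := mul_le_mul_of_nonneg_right (le_max_left _ _) (chord_nn _ _)
    · push Not at hpρ
      have h2 := (hb z hzU a (hρU haρ)).2
      have h3 := hA1 _ haA
      rw [lt_div_iff₀ hM] at h3
      have h4 := ch_tri x z a
      have h5 := ch_tri x a p
      have h6 : r ≤ chord a p := by linarith
      calc r ≤ 1 * chord a p := by linarith
        _ ≤ _ := mul_le_mul_of_nonneg_right (le_max_right _ _) (chord_nn _ _)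

/-- orbits which come near critical points where `K` is uniformly disconnected -/
theorem lud_orbit {P Q : Polynomial ℂ} (hc : IsCoprime P Q) {K : Set (OnePoint ℂ)} (hKc : IsCompact K)
    (hK : MapsTo (rat P Q) K K)
    (hU : ∀ U : Set (OnePoint ℂ), IsOpen U → (∀ c ∈ K, (¬ ∃ V ∈ 𝓝 c, InjOn (rat P Q) V) → c ∈ U) →
      ∀ x ∈ K, ∃ j : ℕ, (rat P Q)^[j] x ∈ U)
    (h : ∀ c ∈ K, (¬ ∃ V ∈ 𝓝 c, InjOn (rat P Q) V) → LUD K c) : UDs K := by
  apply lud_glob hKc
  set U : Set (OnePoint ℂ) := interior {y | LUD K y} with hUd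
  have hcU : ∀ c ∈ K, (¬ ∃ V ∈ 𝓝 c, InjOn (rat P Q) V) → c ∈ U := by
    intro c hcK hcc
    obtain ⟨δ, hδ, h1⟩ := lud_near (h c hcK hcc)
    rw [hUd, mem_interior_iff_mem_nhds]
    refine mem_of_superset ((ch_ball c δ).mem_nhds ?_) h1
    rw [mem_setOf_eq, chord_zero]
    exact hδ
  have key : ∀ (j : ℕ) (x : OnePoint ℂ), x ∈ K → (rat P Q)^[j] x ∈ U → LUD K x := by
    intro j
    induction j with
    | zero =>
      intro x _ hx
      have h9 : x ∈ {y | LUD K y} := interior_subset hx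
      exact h9
    | succ j ih =>
      intro x hxK hx
      by_cases hxc : ∃ V ∈ 𝓝 x, InjOn (rat P Q) V
      · exact lud_step hc hK hxc (ih _ (hK hxK) hx)
      · exact h x hxK hxc
  intro x hx
  obtain ⟨j, hj⟩ := hU U isOpen_interior hcU x hx
  exact key j x hx hj

end Pool.Agent.H64.TP
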