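import Pool.Agent.H64.TP.BIL
import Pool.Agent.H91.Fatou.Mob

/-!
# Rational maps are powers in suitable bi-Lipschitz coordinates (chordal distance)
-/

set_option autoImplicit false

open Filter Topology Polynomial Metric Set Asymptotics

namespace Pool.Agent.H64.TP

open Pool.Agent.H44.Fatou (rat pt Wr dg)
open Pool.Agent.H91.Fatou (ch lin lin_eval ch_ne hom_ne rat_pt exists_chart crit_of_wr ne_of_pt_eq_ch pt_eq_ch)
open Pool.Agent.H35.EX (chord)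

/-- two-point estimate from a strict derivative -/
theorem two_sd {φ : ℂ → ℂ} {a c : ℂ} (ha : a ≠ 0) (h : HasStrictDerivAt φ a c) : ∃ m M : ℝ, 0 < m ∧ 0 < M ∧
    ∀ᶠ p : ℂ × ℂ in 𝓝 (c, c), m * ‖p.1 - p.2‖ ≤ ‖φ p.1 - φ p.2‖ ∧ ‖φ p.1 - φ p.2‖ ≤ M * ‖p.1 - p.2‖ := by
  have hn : 0 < ‖a‖ := norm_pos_iff.2 ha
  have h8 := h.isLittleO.bound (show 0 < ‖a‖ / 2 by positivity)
  refine ⟨‖a‖ / 2, 2 * ‖a‖, by positivity, by positivity, ?_⟩
  filter_upwards [h8] with p hp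
  have e1 : ‖(p.1 - p.2) * a‖ = ‖a‖ * ‖p.1 - p.2‖ := by rw [norm_mul, mul_comm]
  have hp' : ‖φ p.1 - φ p.2 - (p.1 - p.2) * a‖ ≤ ‖a‖ / 2 * ‖p.1 - p.2‖ := by
    simpa using hp
  have e2 := norm_sub_norm_le ((p.1 - p.2) * a) (φ p.1 - φ p.2)
  have e3 := norm_sub_norm_le (φ p.1 - φ p.2) ((p.1 - p.2) * a)
  rw [norm_sub_rev ((p.1 - p.2) * a)] at e2
  have e4 := norm_nonneg (p.1 - p.2)
  have e5 : 0 ≤ ‖a‖ * ‖p.1 - p.2‖ := by positivity
  constructor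
  · linarith
  · linarith

/-- an analytic function which is not locally constant is a power in a suitable coordinate -/
theorem pow_an {G : ℂ → ℂ} {z0 : ℂ} (hG : AnalyticAt ℂ G z0) (h0 : G z0 = 0) (hz : ¬ ∀ᶠ z in 𝓝 z0, G z = 0) :
    ∃ (n : ℕ) (b : ℂ) (φ : ℂ → ℂ), n ≠ 0 ∧ b ≠ 0 ∧ HasStrictDerivAt φ 1 z0 ∧ φ z0 = 0 ∧
      ∀ᶠ z in 𝓝 z0, G z = b * φ z ^ n := by
  obtain ⟨n, g, hg, hg0, hfg⟩ := hG.exists_eventuallyEq_pow_smul_nonzero_iff.2 hz
  have hn0 : n ≠ 0 := by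
    rintro rfl
    have h1 := hfg.self_of_nhds
    simp only [pow_zero, one_smul] at h1
    rw [h0] at h1
    exact hg0 h1.symm
  set h : ℂ → ℂ := fun z => (g z / g z0) ^ ((n : ℂ)⁻¹) with hh
  have hgd : AnalyticAt ℂ (fun z => g z / g z0) z0 := hg.div_const
  have hslit : g z0 / g z0 ∈ Complex.slitPlane := by
    rw [div_self hg0]; exact Complex.one_mem_slitPlane
  have hha : AnalyticAt ℂ h z0 := hgd.cpow analyticAt_const hslit
  have hh0 : h z0 = 1 := by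
    rw [hh]; simp only; rw [div_self hg0, Complex.one_cpow]
  have hhn : ∀ z, h z ^ n = g z / g z0 := fun z => Complex.cpow_nat_inv_pow _ hn0
  set φ : ℂ → ℂ := fun z => (z - z0) * h z with hφ
  have hφa : AnalyticAt ℂ φ z0 := (analyticAt_id.sub analyticAt_const).mul hha
  have hφd : deriv φ z0 = 1 := by
    have h2 := ((hasDerivAt_id z0).sub_const z0).mul hha.differentiableAt.hasDerivAt
    have h3 : (1 * h z0 + (id z0 - z0) * deriv h z0) = 1 := by simp [hh0]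
    rw [h3] at h2
    exact h2.deriv
  have hφs : HasStrictDerivAt φ 1 z0 := by
    have := hφa.hasStrictDerivAt
    rwa [hφd] at this
  refine ⟨n, g z0, φ, hn0, hg0, hφs, by rw [hφ]; simp, ?_⟩
  filter_upwards [hfg] with z hz
  rw [hz, hφ]
  simp only
  rw [mul_pow, hhn, smul_eq_mul]
  field_simp

/-- a rational map is a power in a suitable bi-Lipschitz coordinate -/
theorem pow_coord {P Q : Polynomial ℂ} (hc : IsCoprime P Q) (he : 0 < dg P Q) (x : OnePoint ℂ) :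
    ∃ (k : ℕ) (M : ℝ) (U : Set (OnePoint ℂ)) (u : OnePoint ℂ → ℂ), k ≠ 0 ∧ 0 < M ∧ U ∈ 𝓝 x ∧ u x = 0 ∧
      ∀ y ∈ U, ∀ z ∈ U, ‖u y - u z‖ ≤ M * chord y z ∧ chord y z ≤ M * ‖u y - u z‖ ∧
        ‖u y ^ k - u z ^ k‖ ≤ M * chord (rat P Q y) (rat P Q z) ∧
        chord (rat P Q y) (rat P Q z) ≤ M * ‖u y ^ k - u z ^ k‖ := by
  obtain ⟨α, β, γ, δ, hd, ho, h0⟩ := exists_chart x
  obtain ⟨α', β', γ', δ', hd', ho', h0'⟩ := exists_chart (rat P Q x)
  set p := lin α β γ δ (dg P Q) P with hp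
  set q := lin α β γ δ (dg P Q) Q with hq
  have hpq : ∀ s, rat P Q (ch α β γ δ s) = pt (p.eval s) (q.eval s) := by
    intro s
    unfold ch
    rw [rat_pt (ch_ne hd s), lin_eval, lin_eval]
  have hne : ∀ s, p.eval s ≠ 0 ∨ q.eval s ≠ 0 := by
    intro s
    rw [hp, hq, lin_eval, lin_eval]
    exact hom_ne hc (ch_ne hd s)
  have h1 : pt (p.eval 0) (q.eval 0) = ch α' β' γ' δ' 0 := by
    rw [← hpq, h0, h0']
  obtain ⟨h2, h3⟩ := ne_of_pt_eq_ch hd' (hne 0) h1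
  set G : ℂ → ℂ := fun s => (δ' * p.eval s - β' * q.eval s) / (α' * q.eval s - γ' * p.eval s)
    with hG
  have hpa : AnalyticAt ℂ (fun z => p.eval z) 0 := by
    have := AnalyticOnNhd.eval_polynomial (𝕜 := ℂ) (A := ℂ) p
    exact this 0 (Set.mem_univ _)
  have hqa : AnalyticAt ℂ (fun z => q.eval z) 0 := by
    have := AnalyticOnNhd.eval_polynomial (𝕜 := ℂ) (A := ℂ) q
    exact this 0 (Set.mem_univ _)
  have hGa : AnalyticAt ℂ G 0 :=
    ((analyticAt_const.mul hpa).sub (analyticAt_const.mul hqa)).div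
      ((analyticAt_const.mul hqa).sub (analyticAt_const.mul hpa)) h2
  have hev : ∀ᶠ s in 𝓝 (0 : ℂ), rat P Q (ch α β γ δ s) = ch α' β' γ' δ' (G s) := by
    have hcont : Continuous (fun s => α' * q.eval s - γ' * p.eval s) :=
      (continuous_const.mul q.continuous).sub (continuous_const.mul p.continuous)
    filter_upwards [(hcont.tendsto 0).eventually_ne h2] with s hs
    rw [hpq, pt_eq_ch hd' hs]
  have hG0 : G 0 = 0 := h3
  have hnc : ¬ ∀ᶠ s in 𝓝 (0 : ℂ), G s = 0 := by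
    intro hcon
    have h4 := hev.and hcon
    have h5 : {s | rat P Q (ch α β γ δ s) = ch α' β' γ' δ' (G s) ∧ G s = 0}.Countable := by
      have h6 : {w | rat P Q w = ch α' β' γ' δ' 0}.Countable := Pool.Agent.H91.Fatou.countable_fib1 hc he _
      apply (h6.preimage ho.injective).mono
      rintro s ⟨hs1, hs2⟩
      show rat P Q (ch α β γ δ s) = _
      rw [hs1, hs2]
    have h6 : (𝓝 (0 : ℂ)).NeBot := inferInstance
    obtain ⟨s, hs1, hs2⟩ := (h5.dense_compl ℝ).inter_nhds_nonempty h4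
    exact hs1 hs2
  obtain ⟨n, b, φ, hn, hb, hφ, hφ0, hGφ⟩ := pow_an hGa hG0 hnc
  obtain ⟨m1, M1, hm1, hM1, e1⟩ := two_sd one_ne_zero hφ
  obtain ⟨m2, M2, hm2, hM2, e2⟩ := ch_two hd (0 : ℂ)
  obtain ⟨m3, M3, hm3, hM3, e3⟩ := ch_two hd' (0 : ℂ)
  have e3' : ∀ᶠ p : ℂ × ℂ in 𝓝 ((0 : ℂ), (0 : ℂ)), m3 * ‖G p.1 - G p.2‖ ≤ chord (ch α' β' γ' δ' (G p.1)) (ch α' β' γ' δ' (G p.2)) ∧
      chord (ch α' β' γ' δ' (G p.1)) (ch α' β' γ' δ' (G p.2)) ≤ M3 * ‖G p.1 - G p.2‖ := by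
    have hGc : Tendsto G (𝓝 0) (𝓝 0) := by
      have := hGa.continuousAt.tendsto
      rwa [hG0] at this
    have ht : Tendsto (fun p : ℂ × ℂ => (G p.1, G p.2)) (𝓝 ((0 : ℂ), (0 : ℂ))) (𝓝 ((0 : ℂ), (0 : ℂ))) := by
      rw [nhds_prod_eq]
      exact (hGc.comp tendsto_fst).prodMk (hGc.comp tendsto_snd)
    exact ht.eventually e3
  have e5 := e1.and (e2.and e3')
  rw [nhds_prod_eq, eventually_prod_self_iff'] at e5
  obtain ⟨V, hV, e5⟩ := e5
  obtain ⟨V', hV', e6⟩ := (hev.and hGφ).exists_mem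
  have hbn : 0 < ‖b‖ := norm_pos_iff.2 hb
  set M := max (max (M1 / m2) (M2 / m1)) (max (1 / (‖b‖ * m3)) (M3 * ‖b‖)) with hMd
  have hM : 0 < M := lt_max_of_lt_left (lt_max_of_lt_left (by positivity))
  have hMa : M1 / m2 ≤ M := (le_max_left _ _).trans (le_max_left _ _)
  have hMb : M2 / m1 ≤ M := (le_max_right _ _).trans (le_max_left _ _)
  have hMc : 1 / (‖b‖ * m3) ≤ M := (le_max_left _ _).trans (le_max_right _ _)
  have hMe : M3 * ‖b‖ ≤ M := (le_max_right _ _).trans (le_max_right _ _)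
  have hinv : ∀ t, Function.invFun (ch α β γ δ) (ch α β γ δ t) = t := Function.leftInverse_invFun ho.injective
  refine ⟨n, M, ch α β γ δ '' (V ∩ V'), fun y => φ (Function.invFun (ch α β γ δ) y), hn, hM, ?_, ?_, ?_⟩
  · rw [← h0]
    exact ho.image_mem_nhds.2 (inter_mem hV hV')
  · show φ (Function.invFun (ch α β γ δ) x) = 0
    rw [← h0, hinv, hφ0]
  · rintro _ ⟨s, ⟨hs, hs'⟩, rfl⟩ _ ⟨t, ⟨ht, ht'⟩, rfl⟩
    obtain ⟨⟨a1, a2⟩, ⟨a3, a4⟩, a5, a6⟩ := e5 s hs t ht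
    obtain ⟨b1, b2⟩ := e6 s hs'
    obtain ⟨b3, b4⟩ := e6 t ht'
    simp only at a1 a2 a3 a4 a5 a6
    simp only [hinv]
    rw [b1, b3]
    have hGG : ‖G s - G t‖ = ‖b‖ * ‖φ s ^ n - φ t ^ n‖ := by
      rw [b2, b4, ← mul_sub, norm_mul]
    rw [hGG] at a5 a6
    have n1 := norm_nonneg (s - t)
    have n2 := norm_nonneg (φ s - φ t)
    have n3 := norm_nonneg (φ s ^ n - φ t ^ n)
    have n4 : 0 ≤ chord (ch α β γ δ s) (ch α β γ δ t) := le_trans (by positivity) a3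
    have n5 : 0 ≤ chord (ch α' β' γ' δ' (G s)) (ch α' β' γ' δ' (G t)) := le_trans (by positivity) a5
    refine ⟨?_, ?_, ?_, ?_⟩
    · calc ‖φ s - φ t‖ ≤ M1 * ‖s - t‖ := a2
        _ = M1 / m2 * (m2 * ‖s - t‖) := by field_simp
        _ ≤ M1 / m2 * chord (ch α β γ δ s) (ch α β γ δ t) := by gcongr
        _ ≤ _ := by gcongr
    · calc chord (ch α β γ δ s) (ch α β γ δ t) ≤ M2 * ‖s - t‖ := a4
        _ = M2 / m1 * (m1 * ‖s - t‖) := by field_simp
        _ ≤ M2 / m1 * ‖φ s - φ t‖ := by gcongr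
        _ ≤ _ := by gcongr
    · calc ‖φ s ^ n - φ t ^ n‖ = 1 / (‖b‖ * m3) * (m3 * (‖b‖ * ‖φ s ^ n - φ t ^ n‖)) := by field_simp
        _ ≤ 1 / (‖b‖ * m3) * chord (ch α' β' γ' δ' (G s)) (ch α' β' γ' δ' (G t)) := by gcongr
        _ ≤ _ := by gcongr
    · calc chord (ch α' β' γ' δ' (G s)) (ch α' β' γ' δ' (G t)) ≤ M3 * (‖b‖ * ‖φ s ^ n - φ t ^ n‖) := a6
        _ = M3 * ‖b‖ * ‖φ s ^ n - φ t ^ n‖ := by ring
        _ ≤ _ := by gcongr

/-- Lipschitz bound for powers -/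
theorem pow_lip {a p : ℂ} {R : ℝ} (ha : ‖a‖ ≤ R) (hp : ‖p‖ ≤ R) (n : ℕ) :
    ‖a ^ (n + 1) - p ^ (n + 1)‖ ≤ (n + 1) * R ^ n * ‖a - p‖ := by
  have hR : 0 ≤ R := (norm_nonneg a).trans ha
  induction n with
  | zero => simp
  | succ n ih =>
    have e : a ^ (n + 1 + 1) - p ^ (n + 1 + 1) = a * (a ^ (n + 1) - p ^ (n + 1)) + (a - p) * p ^ (n + 1) := by ring
    rw [e]
    have h1 : ‖p ^ (n + 1)‖ ≤ R ^ (n + 1) := by
      rw [norm_pow]
      exact pow_le_pow_left₀ (norm_nonneg p) hp _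
    calc ‖a * (a ^ (n + 1) - p ^ (n + 1)) + (a - p) * p ^ (n + 1)‖ ≤
        ‖a‖ * ‖a ^ (n + 1) - p ^ (n + 1)‖ + ‖a - p‖ * ‖p ^ (n + 1)‖ := by
          refine (norm_add_le _ _).trans ?_
          rw [norm_mul, norm_mul]
      _ ≤ R * ((n + 1) * R ^ n * ‖a - p‖) + ‖a - p‖ * R ^ (n + 1) := by gcongr
      _ = _ := by push_cast; ring

/-- the scales on which a power is understood -/
theorem pow_scale {k : ℕ} (hk : k ≠ 0) : ∃ c : ℝ, 0 < c ∧ ∀ w : ℂ, ∀ r : ℝ, 0 < r → ‖w‖ < 1 → r < 1 →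
    ∃ ρ t : ℝ, 0 < ρ ∧ 0 < t ∧ c * r ≤ ρ ∧ ρ ≤ 2 * r + ‖w‖ ∧ t ≤ r ∧
      (∀ a : ℂ, ‖a - w‖ < ρ → ‖w ^ k - a ^ k‖ < t → ‖a - w‖ < r ∧ ‖a - w‖ ≤ ρ / 2) ∧
      ∀ a p : ℂ, ‖a - w‖ < ρ → ‖p - w‖ < ρ → c * r * ‖a ^ k - p ^ k‖ ≤ t * ‖a - p‖ := by
  obtain ⟨n, rfl⟩ : ∃ n, k = n + 1 := ⟨k - 1, by omega⟩
  have hsd : HasStrictDerivAt (fun z : ℂ => z ^ (n + 1)) ((n + 1 : ℕ) * (1 : ℂ) ^ n) 1 := by
    have := hasStrictDerivAt_pow (n + 1) (1 : ℂ)
    simpa using this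
  have hne : ((n + 1 : ℕ) * (1 : ℂ) ^ n) ≠ 0 := by
    rw [one_pow, mul_one]
    exact_mod_cast Nat.succ_ne_zero n
  obtain ⟨m, M, hm, hM, e1⟩ := two_sd hne hsd
  rw [nhds_prod_eq, eventually_prod_self_iff'] at e1
  obtain ⟨V, hV, e1⟩ := e1
  obtain ⟨ε0, hε0, hb⟩ := Metric.mem_nhds_iff.1 hV
  set ε := min ε0 1 with hε
  have hεp : 0 < ε := lt_min hε0 one_pos
  have hε1 : ε ≤ 1 := min_le_right _ _
  have key : ∀ w a p : ℂ, w ≠ 0 → ‖a - w‖ < ε * ‖w‖ → ‖p - w‖ < ε * ‖w‖ →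
      m * ‖w‖ ^ n * ‖a - p‖ ≤ ‖a ^ (n + 1) - p ^ (n + 1)‖ ∧
        ‖a ^ (n + 1) - p ^ (n + 1)‖ ≤ M * ‖w‖ ^ n * ‖a - p‖ := by
    intro w a p hw ha hp
    have hwn : 0 < ‖w‖ := norm_pos_iff.2 hw
    have hin : ∀ b : ℂ, ‖b - w‖ < ε * ‖w‖ → b / w ∈ V := by
      intro b hb1
      apply hb
      rw [mem_ball, dist_eq_norm]
      have e : b / w - 1 = (b - w) / w := by field_simp
      rw [e, norm_div, div_lt_iff₀ hwn]
      exact hb1.trans_le (mul_le_mul_of_nonneg_right (min_le_left _ _) hwn.le)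
    obtain ⟨g1, g2⟩ := e1 _ (hin a ha) _ (hin p hp)
    simp only at g1 g2
    have f1 : ‖a / w - p / w‖ = ‖a - p‖ / ‖w‖ := by rw [← sub_div, norm_div]
    have f2 : ‖(a / w) ^ (n + 1) - (p / w) ^ (n + 1)‖ = ‖a ^ (n + 1) - p ^ (n + 1)‖ / ‖w‖ ^ (n + 1) := by
      rw [div_pow, div_pow, ← sub_div, norm_div, norm_pow]
    rw [f1, f2] at g1 g2
    constructor
    · rw [le_div_iff₀ (by positivity)] at g1
      calc m * ‖w‖ ^ n * ‖a - p‖ = m * (‖a - p‖ / ‖w‖) * ‖w‖ ^ (n + 1) := by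
            rw [pow_succ]
            field_simp
        _ ≤ _ := g1
    · rw [div_le_iff₀ (by positivity)] at g2
      calc _ ≤ M * (‖a - p‖ / ‖w‖) * ‖w‖ ^ (n + 1) := g2
        _ = M * ‖w‖ ^ n * ‖a - p‖ := by
          rw [pow_succ]
          field_simp
  -- constants
  set c1 := min (1 / (m + 1)) (ε / 8) with hc1
  have hc1p : 0 < c1 := lt_min (by positivity) (by positivity)
  have hc1a : c1 ≤ 1 / (m + 1) := min_le_left _ _
  have hc1b : c1 ≤ ε / 8 := min_le_right _ _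
  have hc1m : m * c1 ≤ 1 := by
    calc m * c1 ≤ m * (1 / (m + 1)) := by gcongr
      _ ≤ 1 := by
        rw [mul_one_div, div_le_one (by positivity)]
        linarith
  set c := min (min (ε / 4) (m * c1 / M)) (min 1 ((1 / 4) ^ (n + 1) / ((n + 1) * (9 / 4) ^ n))) with hcd
  have hcp : 0 < c := lt_min (lt_min (by positivity) (by positivity)) (lt_min one_pos (by positivity))
  have ca : c ≤ ε / 4 := (min_le_left _ _).trans (min_le_left _ _)
  have cb : c ≤ m * c1 / M := (min_le_left _ _).trans (min_le_right _ _)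
  have cc : c ≤ 1 := (min_le_right _ _).trans (min_le_left _ _)
  have cd : c ≤ (1 / 4) ^ (n + 1) / ((n + 1) * (9 / 4) ^ n) := (min_le_right _ _).trans (min_le_right _ _)
  refine ⟨c, hcp, fun w r hr hw1 hr1 => ?_⟩
  rcases le_or_gt (r / 4) ‖w‖ with hs | hs
  · have hwp : 0 < ‖w‖ := by linarith
    have hw : w ≠ 0 := norm_pos_iff.1 hwp
    have hwn : ‖w‖ ^ n ≤ 1 := pow_le_one₀ hwp.le hw1.le
    refine ⟨ε * ‖w‖, m * ‖w‖ ^ n * (c1 * r), by positivity, by positivity, ?_, ?_, ?_, ?_, ?_⟩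
    · calc c * r ≤ ε / 4 * r := by gcongr
        _ = ε * (r / 4) := by ring
        _ ≤ _ := by gcongr
    · calc ε * ‖w‖ ≤ 1 * ‖w‖ := by gcongr
        _ ≤ _ := by linarith
    · calc m * ‖w‖ ^ n * (c1 * r) = (m * c1) * ‖w‖ ^ n * r := by ring
        _ ≤ 1 * 1 * r := by gcongr
        _ = r := by ring
    · intro a ha hat
      have h1 := (key w a w hw ha (by rw [sub_self, norm_zero]; positivity)).1
      rw [norm_sub_rev] at hat
      have h2 : m * ‖w‖ ^ n * ‖a - w‖ < m * ‖w‖ ^ n * (c1 * r) := h1.trans_lt hat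
      have h3 : ‖a - w‖ < c1 * r := lt_of_mul_lt_mul_left h2 (by positivity)
      constructor
      · calc ‖a - w‖ < c1 * r := h3
          _ ≤ ε / 8 * r := by gcongr
          _ ≤ r := by nlinarith
      · calc ‖a - w‖ ≤ c1 * r := h3.le
          _ ≤ ε / 8 * r := by gcongr
          _ = ε * (r / 4) / 2 := by ring
          _ ≤ _ := by gcongr
    · intro a p ha hp
      have h1 := (key w a p hw ha hp).2
      calc c * r * ‖a ^ (n + 1) - p ^ (n + 1)‖ ≤ (m * c1 / M) * r * (M * ‖w‖ ^ n * ‖a - p‖) := by gcongr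
        _ = _ := by field_simp
  · refine ⟨2 * r, (r / 4) ^ (n + 1), by positivity, by positivity, ?_, ?_, ?_, ?_, ?_⟩
    · nlinarith
    · have := norm_nonneg w
      linarith
    · calc (r / 4) ^ (n + 1) ≤ (r / 4) ^ 1 := pow_le_pow_of_le_one (by positivity) (by linarith) (by omega)
        _ ≤ r := by
          rw [pow_one]
          linarith
    · intro a ha hat
      have h1 : ‖a‖ ^ (n + 1) < (r / 2) ^ (n + 1) := by
        have h2 := norm_sub_norm_le (a ^ (n + 1)) (w ^ (n + 1))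
        rw [norm_sub_rev] at hat
        rw [norm_pow, norm_pow] at h2
        have h3 : ‖w‖ ^ (n + 1) ≤ (r / 4) ^ (n + 1) := by gcongr
        have h4 : (r / 2) ^ (n + 1) = 2 ^ (n + 1) * (r / 4) ^ (n + 1) := by
          rw [← mul_pow]
          congr 1
          ring
        have h5 : (2 : ℝ) ≤ 2 ^ (n + 1) := by
          calc (2 : ℝ) = 2 ^ 1 := by norm_num
            _ ≤ 2 ^ (n + 1) := pow_le_pow_right₀ (by norm_num) (by omega)
        have h6 : 2 * (r / 4) ^ (n + 1) ≤ 2 ^ (n + 1) * (r / 4) ^ (n + 1) := by gcongr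
        rw [h4]
        linarith
      have h2 : ‖a‖ < r / 2 := lt_of_pow_lt_pow_left₀ _ (by positivity) h1
      have h3 := norm_sub_le a w
      constructor <;> linarith
    · intro a p ha hp
      have h1 : ‖a‖ ≤ 9 / 4 * r := by
        have := norm_sub_norm_le a w
        linarith
      have h2 : ‖p‖ ≤ 9 / 4 * r := by
        have := norm_sub_norm_le p w
        linarith
      have h3 := pow_lip h1 h2 n
      have hn : (0 : ℝ) < (n + 1) * (9 / 4) ^ n := by positivity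
      calc c * r * ‖a ^ (n + 1) - p ^ (n + 1)‖ ≤
          ((1 / 4) ^ (n + 1) / ((n + 1) * (9 / 4) ^ n)) * r * ((n + 1) * (9 / 4 * r) ^ n * ‖a - p‖) := by gcongr
        _ = (r / 4) ^ (n + 1) * ‖a - p‖ := by
          rw [mul_pow, div_pow r 4 (n + 1), pow_succ r n, one_div, inv_pow]
          field_simp

end Pool.Agent.H64.TP
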