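import Pool.Agent.H64.TP.LUD
import Pool.Agent.H64.TP.POW

/-!
# Uniform disconnectedness near a point is pulled back by rational maps, critical points included
-/

set_option autoImplicit false

open Filter Topology Polynomial Metric Set

namespace Pool.Agent.H64.TP

open Pool.Agent.H44.Fatou (rat dg)
open Pool.Agent.H35.EX (chord)
open Pool.Agent.H44.RC Pool.Agent.H44.RR Pool.Agent.H27.BR

/-- pull back by one step, without any hypothesis on the point -/
theorem lud_pull {P Q : Polynomial ℂ} (hc : IsCoprime P Q) (he : 0 < dg P Q) {K : Set (OnePoint ℂ)}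
    (hK : MapsTo (rat P Q) K K) {x : OnePoint ℂ} (h : LUD K (rat P Q x)) : LUD K x := by
  obtain ⟨k, M, U, u, hk, hM, hU, hux, hb⟩ := pow_coord hc he x
  obtain ⟨c, hcp, hs⟩ := pow_scale hk
  obtain ⟨ρ, hρ, hρU⟩ := ch_nhds hU
  obtain ⟨C, δ, hC, hδ, h⟩ := h
  have hxU : x ∈ U := hρU (by rw [mem_ofPred_eq, chord_zero]; exact hρ)
  have hfx : Continuous (rat P Q) := Pool.Agent.H44.Fatou.rat_continuous hc
  obtain ⟨δ3, hδ3, hf3⟩ : ∃ δ3 : ℝ, 0 < δ3 ∧ ∀ z, chord x z < δ3 → chord (rat P Q x) (rat P Q z) < δ := by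
    have h1 : {z | chord (rat P Q x) (rat P Q z) < δ} ∈ 𝓝 x := by
      apply (IsOpen.preimage hfx (ch_ball (rat P Q x) δ)).mem_nhds
      show chord (rat P Q x) (rat P Q x) < δ
      rw [chord_zero]
      exact hδ
    obtain ⟨δ3, hδ3, h2⟩ := ch_nhds h1
    exact ⟨δ3, hδ3, fun z hz => h2 hz⟩
  -- the window around `x`
  set δ1 := min (min (ρ / 2) δ3) (min (1 / (2 * M)) (min (M ^ 2 * δ) M)) with hδ1
  have hδ10 : 0 < δ1 := lt_min (lt_min (by positivity) hδ3) (lt_min (by positivity) (lt_min (by positivity) hM))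
  have d1 : δ1 ≤ ρ / 2 := (min_le_left _ _).trans (min_le_left _ _)
  have d3 : δ1 ≤ δ3 := (min_le_left _ _).trans (min_le_right _ _)
  have d4 : δ1 ≤ 1 / (2 * M) := (min_le_right _ _).trans (min_le_left _ _)
  have d5 : δ1 ≤ M ^ 2 * δ := (min_le_right _ _).trans ((min_le_right _ _).trans (min_le_left _ _))
  have d7 : δ1 ≤ M := (min_le_right _ _).trans ((min_le_right _ _).trans (min_le_right _ _))
  refine ⟨max (C * M ^ 4 / c) (max (2 * M ^ 2 / c) 1), δ1 / 2, lt_max_of_lt_right (lt_max_of_lt_right one_pos), by positivity,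
    fun z hz hxz r hr hrδ => ?_⟩
  have hzρ : chord x z < ρ := by linarith
  have hzU : z ∈ U := hρU hzρ
  have hw : ‖u z‖ < 1 := by
    have h1 := (hb x hxU z hzU).1
    rw [hux, zero_sub, norm_neg] at h1
    calc ‖u z‖ ≤ M * chord x z := h1
      _ ≤ M * (1 / (2 * M)) := by
        apply mul_le_mul_of_nonneg_left _ hM.le
        linarith
      _ = 1 / 2 := by field_simp
      _ < 1 := by norm_num
  have hru : 0 < r / M := by positivity
  have hru1 : r / M < 1 := by
    rw [div_lt_one hM]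
    linarith
  obtain ⟨ρu, t, hρu, ht, t1, -, t2, t3, t4⟩ := hs (u z) (r / M) hru hw hru1
  have h1 : chord (rat P Q x) (rat P Q z) < δ := hf3 z (by linarith)
  obtain ⟨A', hA'K, hzA', hA1, hA2⟩ := h (rat P Q z) (hK hz) h1 (t / M) (by positivity) (by
    rw [div_lt_iff₀ hM]
    have h2 : M ^ 2 * δ = M * (δ * M) := by ring
    have h3 : r < M * (δ * M) := by linarith
    have h4 : r / M < δ * M := by rwa [div_lt_iff₀ hM, mul_comm]
    linarith)
  have hA3 : ∀ a, chord x a < ρ → ‖u a - u z‖ < ρu → rat P Q a ∈ A' → ‖u a - u z‖ < r / M ∧ ‖u a - u z‖ ≤ ρu / 2 := by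
    intro a haρ haw haA
    refine t3 (u a) haw ?_
    have h2 := hA1 _ haA
    rw [lt_div_iff₀ hM] at h2
    have h3 := (hb z hzU a (hρU haρ)).2.2.1
    linarith
  have hA4 : ∀ a, chord x a < ρ → ‖u a - u z‖ < r / M → chord z a < r := by
    intro a haρ haw
    have h3 := (hb z hzU a (hρU haρ)).2.1
    rw [norm_sub_rev] at h3
    rw [lt_div_iff₀ hM] at haw
    linarith
  refine ⟨{a | a ∈ K ∧ chord x a < ρ ∧ ‖u a - u z‖ < ρu ∧ rat P Q a ∈ A'}, fun a ha => ha.1, ⟨hz, hzρ, ?_, hzA'⟩, ?_, ?_⟩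
  · rw [sub_self, norm_zero]
    exact hρu
  · rintro a ⟨haK, haρ, haw, haA⟩
    exact hA4 a haρ (hA3 a haρ haw haA).1
  · rintro a ⟨haK, haρ, haw, haA⟩ p hp hpA
    obtain ⟨g1, g2⟩ := hA3 a haρ haw haA
    have g3 := hA4 a haρ g1
    have hcn := chord_nn a p
    by_cases hpρ : chord x p < ρ
    · have g4 := (hb a (hρU haρ) p (hρU hpρ)).1
      by_cases hpw : ‖u p - u z‖ < ρu
      · have g5 : rat P Q p ∉ A' := fun h3 => hpA ⟨hp, hpρ, hpw, h3⟩
        have g6 := hA2 _ haA _ (hK hp) g5
        rw [div_le_iff₀ hM] at g6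
        have g7 := (hb a (hρU haρ) p (hρU hpρ)).2.2.2
        have g8 := t4 (u a) (u p) haw hpw
        have g9 : t ≤ M ^ 2 * C * ‖u a ^ k - u p ^ k‖ := by
          calc t ≤ C * chord (rat P Q a) (rat P Q p) * M := g6
            _ ≤ C * (M * ‖u a ^ k - u p ^ k‖) * M := by gcongr
            _ = _ := by ring
        have g10 : c * (r / M) * t ≤ M ^ 2 * C * ‖u a - u p‖ * t := by
          calc c * (r / M) * t ≤ c * (r / M) * (M ^ 2 * C * ‖u a ^ k - u p ^ k‖) := by gcongr
            _ = M ^ 2 * C * (c * (r / M) * ‖u a ^ k - u p ^ k‖) := by ring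
            _ ≤ M ^ 2 * C * (t * ‖u a - u p‖) := by gcongr
            _ = _ := by ring
        have g11 : c * (r / M) ≤ M ^ 2 * C * ‖u a - u p‖ := le_of_mul_le_mul_right g10 ht
        have g12 : r ≤ C * M ^ 4 / c * chord a p := by
          calc r = M / c * (c * (r / M)) := by field_simp
            _ ≤ M / c * (M ^ 2 * C * ‖u a - u p‖) := by gcongr
            _ ≤ M / c * (M ^ 2 * C * (M * chord a p)) := by gcongr
            _ = _ := by ring
        exact g12.trans (mul_le_mul_of_nonneg_right (le_max_left _ _) hcn)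
      · push Not at hpw
        have g5 : ρu / 2 ≤ ‖u a - u p‖ := by
          have h5 : u p - u z = (u a - u z) - (u a - u p) := by ring
          have h6 := norm_sub_le (u a - u z) (u a - u p)
          rw [← h5] at h6
          linarith
        have g12 : r ≤ 2 * M ^ 2 / c * chord a p := by
          calc r = 2 * M / c * (c * (r / M) / 2) := by field_simp
            _ ≤ 2 * M / c * (ρu / 2) := by gcongr
            _ ≤ 2 * M / c * ‖u a - u p‖ := by gcongr
            _ ≤ 2 * M / c * (M * chord a p) := by gcongr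
            _ = _ := by ring
        exact g12.trans (mul_le_mul_of_nonneg_right ((le_max_left _ _).trans (le_max_right _ _)) hcn)
    · push Not at hpρ
      have h4 := ch_tri x z a
      have h5 := ch_tri x a p
      have h6 : r ≤ 1 * chord a p := by linarith
      exact h6.trans (mul_le_mul_of_nonneg_right ((le_max_right _ _).trans (le_max_right _ _)) hcn)

/-- the set of points of `K` near which `K` is not uniformly disconnected is closed and forward invariant -/
theorem nlud_inv {P Q : Polynomial ℂ} (hc : IsCoprime P Q) (he : 0 < dg P Q) {K : Set (OnePoint ℂ)}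
    (hK : MapsTo (rat P Q) K K) (hKc : IsClosed K) : IsClosed {x | x ∈ K ∧ ¬ LUD K x} ∧
      MapsTo (rat P Q) {x | x ∈ K ∧ ¬ LUD K x} {x | x ∈ K ∧ ¬ LUD K x} := by
  constructor
  · have h1 : IsOpen {x | LUD K x} := by
      rw [isOpen_iff_mem_nhds]
      intro x hx
      obtain ⟨δ, hδ, h1⟩ := lud_near hx
      refine mem_of_superset ((ch_ball x δ).mem_nhds ?_) h1
      rw [mem_ofPred_eq, chord_zero]
      exact hδ
    exact hKc.inter h1.isClosed_compl
  · rintro x ⟨hxK, hx⟩
    exact ⟨hK hxK, fun h => hx (lud_pull hc he hK h)⟩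

end Pool.Agent.H64.TP
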