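import Pool.Agent.H64.TP.LUP
import Pool.Agent.H64.TP.Main

/-!
# (T''): the points of the post-critical set near which it is not uniformly disconnected

They form a nonempty closed forward invariant set.
-/

set_option autoImplicit false

open Filter Topology Polynomial Metric Set

namespace Pool.Agent.H64.TP

open Pool.Agent.H44.Fatou (rat rat_continuous dg)
open Pool.Agent.H32.BT Pool.Agent.H79.Eul Pool.Agent.H79.Par Pool.Agent.H44.RC Pool.Agent.H47.NM Pool.Agent.H47.RJ
open Pool.Agent.H57.CF Pool.Agent.H27.BR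
open Pool.Agent.H64.JS

variable {d : ℕ}

/-- (T''), part 1 -/
theorem bset {m : ℕ} (hd : 2 ≤ d) (hm : m ≤ d) {x : Em d m} (hcop : IsCoprime (pol x.1) (pol x.2))
    (hdeg : max (pol x.1).natDegree (pol x.2).natDegree = d) (hup : ¬ UpF d m x) :
    (∀ c, IsCrit (Rf (ex d m x)) c → c ∉ JS (Rf (ex d m x))) ∨
      (∃ z ∈ KK (Rf (ex d m x)), ¬ LUD (KK (Rf (ex d m x))) z) ∧
      IsClosed {z | z ∈ KK (Rf (ex d m x)) ∧ ¬ LUD (KK (Rf (ex d m x))) z} ∧
      MapsTo (Rf (ex d m x)) {z | z ∈ KK (Rf (ex d m x)) ∧ ¬ LUD (KK (Rf (ex d m x))) z}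
        {z | z ∈ KK (Rf (ex d m x)) ∧ ¬ LUD (KK (Rf (ex d m x))) z} := by
  rcases Pool.Agent.H78.UX.ud_all hd hm hcop hdeg hup with h1 | h1
  · exact Or.inl h1
  right
  have hcop' := ex_cop hcop
  have hdeg' := ex_deg hdeg
  set f := Rf (ex d m x) with hf
  have hfc : Continuous f := rat_continuous hcop'
  have hKc : IsCompact (KK f) := (isClosed_closure).isCompact
  have hdg : 0 < dg (pol (ex d m x).1) (pol (ex d m x).2) := by
    unfold dg
    rw [hdeg']
    exact lt_of_lt_of_le two_pos hd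
  have hKi : MapsTo f (KK f) (KK f) := fun y hy => kj_inv hfc y hy
  have hn := nlud_inv hcop' hdg hKi hKc.isClosed
  refine ⟨?_, hn.1, hn.2⟩
  by_contra hcon
  push Not at hcon
  exact h1 (lud_glob hKc hcon)

end Pool.Agent.H64.TP
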