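import Pool.Agent.H64.TP.Main2
import Pool.Agent.H44.TH.BP

/-!
# (T''): consequences for a totally disconnected post-critical set

Everything from `NFC` of `H44/TH/BP`.
-/

set_option autoImplicit false

open Filter Topology Polynomial Metric Set

namespace Pool.Agent.H64.TP

open Pool.Agent.H44.Fatou (rat rat_continuous dg)
open Pool.Agent.H32.BT Pool.Agent.H79.Eul Pool.Agent.H79.Par Pool.Agent.H44.RC Pool.Agent.H47.NM Pool.Agent.H47.RJ
open Pool.Agent.H57.CF Pool.Agent.H27.BR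
open Pool.Agent.H64.JS
open Pool.Agent.H44.TH

variable {d : ℕ}

/-- (T''), part 2: from `NFC` -/
theorem tpp {m : ℕ} (hd : 2 ≤ d) (hm : m ≤ d) {x : Em d m} (hcop : IsCoprime (pol x.1) (pol x.2))
    (hdeg : max (pol x.1).natDegree (pol x.2).natDegree = d) (hup : ¬ UpF d m x) (hnfc : NFC (Rf (ex d m x)))
    (htd : IsTotallyDisconnected (KK (Rf (ex d m x)))) :
    (∀ c, IsCrit (Rf (ex d m x)) c → c ∉ JS (Rf (ex d m x))) ∨
      (NFR (Rf (ex d m x)) ∧ RetC (Rf (ex d m x)) ∧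
        (∃ c ∈ KK (Rf (ex d m x)), IsCrit (Rf (ex d m x)) c ∧ ¬ LUD (KK (Rf (ex d m x))) c) ∧
        ({c | IsCrit (Rf (ex d m x)) c ∧ c ∈ JS (Rf (ex d m x))}.Subsingleton → ∀ z ∈ KK (Rf (ex d m x)),
          Om (Rf (ex d m x)) z = KK (Rf (ex d m x)) ∧ ¬ LUD (KK (Rf (ex d m x))) z)) := by
  rcases bset hd hm hcop hdeg hup with h1 | h1
  · exact Or.inl h1
  right
  have hcop' := ex_cop hcop
  have hdeg' := ex_deg hdeg
  set f := Rf (ex d m x) with hf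
  have hfc : Continuous f := rat_continuous hcop'
  have hJi : ∀ x ∈ JS f, f x ∈ JS f := Pool.Agent.H64.PF.js_inv hd hcop' hdeg'
  have hnfr : NFR f := nfr_of hnfc htd
  obtain ⟨⟨z0, hz0, hz1⟩, hBc, hBi⟩ := h1
  obtain ⟨B, hB⟩ : ∃ B, B = {z | z ∈ KK f ∧ ¬ LUD (KK f) z} := ⟨_, rfl⟩
  rw [← hB] at hBc hBi
  have hB0 : z0 ∈ B := hB ▸ ⟨hz0, hz1⟩
  have hBK : B ⊆ KK f := by
    rw [hB]
    exact fun z hz => hz.1
  refine ⟨hnfr, fun U hU hcU => enter hfc hJi hnfr hU fun c hc => hcU c hc.1 hc.2, ?_, fun hs z hz => ?_⟩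
  · obtain ⟨c, hcB, hc⟩ := hnfr B hBK hBc ⟨z0, hB0⟩ hBi
    rw [hB] at hcB
    exact ⟨c, hcB.1, hc, hcB.2⟩
  · have e1 := minl hfc hJi hnfr hs hz
    refine ⟨e1, ?_⟩
    have e2 : Om f z0 = KK f := minl hfc hJi hnfr hs hz0
    have e3 : Om f z0 ⊆ B := om_sub hBc hBi hB0
    have e4 : z ∈ B := e3 (e2 ▸ hz)
    rw [hB] at e4
    exact e4.2

end Pool.Agent.H64.TP
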