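import Pool.Agent.H64.TP.Main3
import Pool.Agent.H44.TH.BS

/-!
# (T''): unconditional form

`tfin`: for every map which is not a limit of maps with more attracted critical points and has a critical point in its Julia
set: the points near which the post-critical set `K` is not uniformly disconnected form a nonempty closed forward invariant
set; every nonempty closed forward invariant subset of `K` contains a critical point or meets a component of `K` which is not a
point; if `K` is totally disconnected: uniform returns to the critical points, `K` is not uniformly disconnected near some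
critical point; if moreover the Julia set contains only one critical point, `K` is minimal and uniformly disconnected near none
of its points.
-/

set_option autoImplicit false

open Filter Topology Polynomial Metric Set

namespace Pool.Agent.H64.TP

open Pool.Agent.H32.BT Pool.Agent.H79.Eul Pool.Agent.H79.Par Pool.Agent.H44.RC Pool.Agent.H47.NM Pool.Agent.H47.RJ
open Pool.Agent.H57.CF Pool.Agent.H27.BR
open Pool.Agent.H64.JS
open Pool.Agent.H44.TH

variable {d : ℕ}

theorem tfin {m : ℕ} (hd : 2 ≤ d) (hm : m ≤ d) {x : Em d m} (hcop : IsCoprime (pol x.1) (pol x.2))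
    (hdeg : max (pol x.1).natDegree (pol x.2).natDegree = d) (hup : ¬ UpF d m x) :
    (∀ c, IsCrit (Rf (ex d m x)) c → c ∉ JS (Rf (ex d m x))) ∨
      (∃ z ∈ KK (Rf (ex d m x)), ¬ LUD (KK (Rf (ex d m x))) z) ∧
      IsClosed {z | z ∈ KK (Rf (ex d m x)) ∧ ¬ LUD (KK (Rf (ex d m x))) z} ∧
      MapsTo (Rf (ex d m x)) {z | z ∈ KK (Rf (ex d m x)) ∧ ¬ LUD (KK (Rf (ex d m x))) z}
        {z | z ∈ KK (Rf (ex d m x)) ∧ ¬ LUD (KK (Rf (ex d m x))) z} ∧
      NFC (Rf (ex d m x)) ∧
      (IsTotallyDisconnected (KK (Rf (ex d m x))) →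
        NFR (Rf (ex d m x)) ∧ RetC (Rf (ex d m x)) ∧
        (∃ c ∈ KK (Rf (ex d m x)), IsCrit (Rf (ex d m x)) c ∧ ¬ LUD (KK (Rf (ex d m x))) c) ∧
        ({c | IsCrit (Rf (ex d m x)) c ∧ c ∈ JS (Rf (ex d m x))}.Subsingleton → ∀ z ∈ KK (Rf (ex d m x)),
          Om (Rf (ex d m x)) z = KK (Rf (ex d m x)) ∧ ¬ LUD (KK (Rf (ex d m x))) z)) := by
  have hn := nfc_all hd hm hcop hdeg hup
  rcases bset hd hm hcop hdeg hup with h1 | h1
  · exact Or.inl h1
  · by_cases h0 : ∀ c, IsCrit (Rf (ex d m x)) c → c ∉ JS (Rf (ex d m x))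
    · exact Or.inl h0
    · exact Or.inr ⟨h1.1, h1.2.1, h1.2.2, hn, fun htd =>
        (tpp hd hm hcop hdeg hup hn htd).resolve_left h0⟩

end Pool.Agent.H64.TP
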